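import Pool.Agent.U441.MS.Mh

/-!
# MP_a70bdc_nt: primes `⌊x n ^ n⌋ + h` for almost every real number `x`

The problem asks whether `n ^ n + 1` is prime for infinitely many `n`; this is `⌊x n ^ n⌋ + h` with
`x = 1`, `h = 1`. Here `x` is a real number, and the theorems hold for almost every `x > 0`.
-/

set_option autoImplicit false

namespace Pool.Agent.Results.MP_a70bdc_nt.MetricSelfPowers

open MeasureTheory Filter Topology

/-- `⌊x a_n⌋ + h` is a prime number -/
def PrimeAt (a : ℕ → ℝ) (x : ℝ) (h : ℤ) (n : ℕ) : Prop := (⌊x * a n⌋ + h).toNat.Prime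

/-- the number of `n ≤ N` in `S` for which `⌊x a_n⌋ + h` is prime -/
noncomputable def number (a : ℕ → ℝ) (S : Set ℕ) (x : ℝ) (h : ℤ) (N : ℕ) : ℕ :=
  {n : ℕ | n ≤ N ∧ n ∈ S ∧ PrimeAt a x h n}.ncard

/-- the expected number: the sum of `1 / log a_n` over the `n ≤ N` in `S` (terms with `a_n = 1` are
zero) -/
noncomputable def expected (a : ℕ → ℝ) (S : Set ℕ) (N : ℕ) : ℝ :=
  ∑ n ∈ Finset.range (N + 1), S.indicator (fun n => 1 / Real.log (a n)) n

/-- `a_n ≥ 1` for all `n`; for large `n`, `a_{n+1} ≥ n ^ c a_n` with some `c > 0`, and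
`log a_n ≤ n ^ k` with some `k` -/
def Growth (a : ℕ → ℝ) : Prop :=
  (∀ n, 1 ≤ a n) ∧ (∃ c : ℝ, 0 < c ∧ ∀ᶠ n : ℕ in atTop, (n : ℝ) ^ c * a n ≤ a (n + 1)) ∧
    ∃ k : ℕ, ∀ᶠ n : ℕ in atTop, Real.log (a n) ≤ (n : ℝ) ^ k

/-- the sequence `n ^ n` -/
noncomputable def selfPower (n : ℕ) : ℝ := (n : ℝ) ^ n

open Classical in
lemma T_eq (a : ℕ → ℝ) (S : Set ℕ) (x : ℝ) (h : ℤ) (N : ℕ) :
    Pool.Agent.U441.MS.T a h (Pool.Agent.U441.MS.FS S N) x = number a S x h N := by
  have e : {n : ℕ | n ≤ N ∧ n ∈ S ∧ PrimeAt a x h n} =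
      (((Pool.Agent.U441.MS.FS S N).filter (fun n => PrimeAt a x h n) : Finset ℕ) : Set ℕ) := by
    ext n
    simp only [Pool.Agent.U441.MS.FS, Set.mem_setOf_eq, Finset.coe_filter, Finset.mem_filter,
      Finset.mem_range, Nat.lt_succ_iff, and_assoc]
  unfold number
  rw [e, Set.ncard_coe_finset, Finset.card_eq_sum_ones, Finset.sum_filter]
  push_cast
  unfold Pool.Agent.U441.MS.T
  refine Finset.sum_congr rfl fun n _ => ?_
  unfold Pool.Agent.U441.MS.ind Set.indicator PrimeAt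
  simp only [Set.mem_setOf_eq]
  congr

lemma W_eq (a : ℕ → ℝ) (S : Set ℕ) (N : ℕ) :
    Pool.Agent.U441.MS.W a S N = expected a S N := by
  classical
  unfold Pool.Agent.U441.MS.W Pool.Agent.U441.MS.FS expected
  rw [Finset.sum_filter]
  refine Finset.sum_congr rfl fun n _ => ?_
  unfold Set.indicator
  congr

lemma number_mono (a : ℕ → ℝ) (S : Set ℕ) (x : ℝ) (h : ℤ)
    (hf : {n : ℕ | n ∈ S ∧ PrimeAt a x h n}.Finite) (N : ℕ) :
    number a S x h N ≤ {n : ℕ | n ∈ S ∧ PrimeAt a x h n}.ncard :=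
  Set.ncard_le_ncard (fun _ hn => hn.2) hf

lemma div_case {a : ℕ → ℝ} (ha : Growth a) (S : Set ℕ)
    (hS : ¬ Summable (S.indicator fun n => 1 / Real.log (a n))) :
    ∀ᵐ x : ℝ, 0 < x → ∀ h : ℤ, {n : ℕ | n ∈ S ∧ PrimeAt a x h n}.Infinite ∧ ∀ ε : ℝ, 0 < ε →
      (∃ᶠ N : ℕ in atTop, (1 - ε) * expected a S N < number a S x h N) ∧
      (∃ᶠ N : ℕ in atTop, (number a S x h N : ℝ) < (1 + ε) * expected a S N) := by
  obtain ⟨h1, ⟨c, hc, h2⟩, k, h3⟩ := ha
  have hnn : ∀ n, 0 ≤ S.indicator (fun n => 1 / Real.log (a n)) n :=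
    Set.indicator_nonneg fun n _ => one_div_nonneg.2 (Real.log_nonneg (h1 n))
  have hE0 : ∀ N, 0 ≤ expected a S N := fun N => Finset.sum_nonneg fun n _ => hnn n
  have hE : Tendsto (expected a S) atTop atTop :=
    (tendsto_add_atTop_iff_nat 1).2 ((not_summable_iff_tendsto_nat_atTop_of_nonneg hnn).1 hS)
  have hW : Tendsto (Pool.Agent.U441.MS.W a S) atTop atTop := hE.congr fun N => (W_eq a S N).symm
  have h4 : ∀ᵐ x : ℝ, ∀ h : ℤ, ∀ j : ℕ, 0 < x →
      (∃ᶠ N : ℕ in atTop, (1 - 1 / ((j : ℝ) + 1)) * expected a S N < number a S x h N) ∧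
      (∃ᶠ N : ℕ in atTop, (number a S x h N : ℝ) < (1 + 1 / ((j : ℝ) + 1)) * expected a S N) := by
    refine ae_all_iff.2 fun h => ae_all_iff.2 fun j => ?_
    have hj : (1 : ℝ) / ((j : ℝ) + 1) ≤ 1 := by
      rw [div_le_one (by positivity)]
      linarith [Nat.cast_nonneg (α := ℝ) j]
    have h5 := Pool.Agent.U441.MS.ae_one h1 hc h2 h3 S hW h (ε := 1 / ((j : ℝ) + 1))
      (by positivity) hj
    filter_upwards [h5] with x hx hx0
    simpa only [T_eq, W_eq] using hx hx0
  filter_upwards [h4] with x hx hx0 h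
  refine ⟨fun hfin => ?_, fun ε hε => ?_⟩
  · have h6 := (hx h 1 hx0).1
    have h7 : Tendsto (fun N => (1 - 1 / (((1 : ℕ) : ℝ) + 1)) * expected a S N) atTop atTop :=
      hE.const_mul_atTop (by norm_num)
    have h8 := h7.eventually_gt_atTop (({n : ℕ | n ∈ S ∧ PrimeAt a x h n}.ncard : ℕ) : ℝ)
    obtain ⟨N, hN1, hN2⟩ := (h6.and_eventually h8).exists
    have h9 : (number a S x h N : ℝ) ≤ (({n : ℕ | n ∈ S ∧ PrimeAt a x h n}.ncard : ℕ) : ℝ) := by
      exact_mod_cast number_mono a S x h hfin N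
    linarith
  · obtain ⟨j, hj⟩ := exists_nat_one_div_lt hε
    obtain ⟨h6, h7⟩ := hx h j hx0
    refine ⟨h6.mono fun N hN => lt_of_le_of_lt ?_ hN, h7.mono fun N hN => lt_of_lt_of_le hN ?_⟩
    · exact mul_le_mul_of_nonneg_right (by linarith) (hE0 N)
    · exact mul_le_mul_of_nonneg_right (by linarith) (hE0 N)

lemma conv_case {a : ℕ → ℝ} (ha : Growth a) (S : Set ℕ)
    (hS : Summable (S.indicator fun n => 1 / Real.log (a n))) :
    ∀ᵐ x : ℝ, 0 < x → ∀ h : ℤ, {n : ℕ | n ∈ S ∧ PrimeAt a x h n}.Finite := by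
  obtain ⟨h1, ⟨c, hc, h2⟩, k, h3⟩ := ha
  obtain ⟨n1, H⟩ := Pool.Agent.U441.MS.ev_hyp h1 hc h2 h3
  have h4 : ∀ᵐ x : ℝ, ∀ h : ℤ, 0 < x → {n : ℕ | n ∈ S ∧ PrimeAt a x h n}.Finite :=
    ae_all_iff.2 fun h => Pool.Agent.U441.MS.ae_fin h1 H.tendsto S hS h
  filter_upwards [h4] with x hx hx0 h
  exact hx h hx0

lemma growth_sp : Growth selfPower :=
  ⟨Pool.Agent.U441.MS.sp_one, ⟨1, one_pos, Pool.Agent.U441.MS.sp_grow⟩, 2,
    Pool.Agent.U441.MS.sp_poly⟩

/-- (1), (2) Let `a` be a sequence with `Growth a` and let `S` be a set of natural numbers.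
(1) If the sum of `1 / log a_n` over `S` diverges, then for almost every `x > 0` and every integer
`h`: `⌊x a_n⌋ + h` is prime for infinitely many `n` in `S`, and the number of these `n ≤ N` is
greater than `1 - ε` times the expected one for arbitrarily large `N`, and less than `1 + ε` times
the expected one for arbitrarily large `N`, for each `ε > 0`.
(2) If the sum converges, then for almost every `x > 0` and every integer `h`, `⌊x a_n⌋ + h` is
prime for only finitely many `n` in `S`.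
(3) The sequence `n ^ n` has `Growth`; for almost every `x > 0` and every `h`, `⌊x n ^ n⌋ + h` is
prime for infinitely many `n`, with `log log N` as the expected number in (1).
(4) For almost every `x > 0` and every `h`, `⌊x n ^ n⌋ + h` is prime for only finitely many `n` of
the form `2 ^ (2 ^ k)`. -/
theorem result :
    (∀ a : ℕ → ℝ, Growth a → ∀ S : Set ℕ,
      ((¬ Summable (S.indicator fun n => 1 / Real.log (a n))) →
        ∀ᵐ x : ℝ, 0 < x → ∀ h : ℤ, {n : ℕ | n ∈ S ∧ PrimeAt a x h n}.Infinite ∧ ∀ ε : ℝ, 0 < ε →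
          (∃ᶠ N : ℕ in atTop, (1 - ε) * expected a S N < number a S x h N) ∧
          (∃ᶠ N : ℕ in atTop, (number a S x h N : ℝ) < (1 + ε) * expected a S N)) ∧
      (Summable (S.indicator fun n => 1 / Real.log (a n)) →
        ∀ᵐ x : ℝ, 0 < x → ∀ h : ℤ, {n : ℕ | n ∈ S ∧ PrimeAt a x h n}.Finite)) ∧
    Growth selfPower ∧
    (∀ᵐ x : ℝ, 0 < x → ∀ h : ℤ, {n : ℕ | PrimeAt selfPower x h n}.Infinite ∧ ∀ ε : ℝ, 0 < ε →
      (∃ᶠ N : ℕ in atTop,
        (1 - ε) * Real.log (Real.log N) < number selfPower Set.univ x h N) ∧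
      (∃ᶠ N : ℕ in atTop,
        (number selfPower Set.univ x h N : ℝ) < (1 + ε) * Real.log (Real.log N))) ∧
    (∀ᵐ x : ℝ, 0 < x → ∀ h : ℤ, {k : ℕ | PrimeAt selfPower x h (2 ^ (2 ^ k))}.Finite) := by
  refine ⟨fun a ha S => ⟨div_case ha S, conv_case ha S⟩, growth_sp, ?_, ?_⟩
  · have hWt := Pool.Agent.U441.MS.W_sp_tendsto
    have hns : ¬ Summable (Set.univ.indicator fun n => 1 / Real.log (selfPower n)) := by
      have hnn : ∀ n, 0 ≤ Set.univ.indicator (fun n => 1 / Real.log (selfPower n)) n :=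
        Set.indicator_nonneg fun n _ =>
          one_div_nonneg.2 (Real.log_nonneg (Pool.Agent.U441.MS.sp_one n))
      rw [not_summable_iff_tendsto_nat_atTop_of_nonneg hnn, ← tendsto_add_atTop_iff_nat 1]
      exact hWt.congr fun N => W_eq selfPower Set.univ N
    filter_upwards [div_case growth_sp Set.univ hns] with x hx hx0 h
    obtain ⟨h1, h2⟩ := hx hx0 h
    refine ⟨by simpa using h1, fun ε hε => ?_⟩
    obtain ⟨B, hB⟩ := Pool.Agent.U441.MS.W_sp
    have hB0 : 0 ≤ B := (abs_nonneg _).trans (hB 2 le_rfl)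
    set e := min ε 1 with he
    have he0 : 0 < e := lt_min hε one_pos
    have he1 : e ≤ 1 := min_le_right _ _
    have heε : e ≤ ε := min_le_left _ _
    have hl := Pool.Agent.U441.MS.loglog_tendsto.eventually_ge_atTop (3 * B / e)
    obtain ⟨h3, h4⟩ := h2 (e / 2) (by positivity)
    have key : ∀ᶠ N : ℕ in atTop, (1 - ε) * Real.log (Real.log N) ≤
        (1 - e / 2) * expected selfPower Set.univ N ∧
        (1 + e / 2) * expected selfPower Set.univ N ≤ (1 + ε) * Real.log (Real.log N) := by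
      filter_upwards [hl, eventually_ge_atTop 2] with N hN hN2
      rw [div_le_iff₀ he0] at hN
      have h5 := hB N hN2
      rw [show Pool.Agent.U441.MS.W Pool.Agent.U441.MS.sp Set.univ N =
        expected selfPower Set.univ N from W_eq selfPower Set.univ N, abs_le] at h5
      set l := Real.log (Real.log N) with hl'
      set E := expected selfPower Set.univ N with hE'
      have hl0 : 0 ≤ l := by
        by_contra hneg
        have : l * e < 0 := mul_neg_of_neg_of_pos (not_le.1 hneg) he0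
        linarith
      have h6 : (1 - ε) * l ≤ (1 - e) * l := mul_le_mul_of_nonneg_right (by linarith) hl0
      have h7 : (1 + e) * l ≤ (1 + ε) * l := mul_le_mul_of_nonneg_right (by linarith) hl0
      have h8 : (1 - e / 2) * (l - B) ≤ (1 - e / 2) * E :=
        mul_le_mul_of_nonneg_left (by linarith [h5.1]) (by linarith)
      have h9 : (1 + e / 2) * E ≤ (1 + e / 2) * (l + B) :=
        mul_le_mul_of_nonneg_left (by linarith [h5.2]) (by linarith)
      constructor
      · nlinarith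
      · nlinarith
    exact ⟨(h3.and_eventually key).mono fun N hN => lt_of_le_of_lt hN.2.1 hN.1,
      (h4.and_eventually key).mono fun N hN => lt_of_lt_of_le hN.1 hN.2.2⟩
  · have h1 := conv_case growth_sp Pool.Agent.U441.MS.fermatIdx Pool.Agent.U441.MS.summable_fermat
    filter_upwards [h1] with x hx hx0 h
    have h2 := hx hx0 h
    have hinj : Function.Injective fun k : ℕ => 2 ^ (2 ^ k) := by
      intro a b hab
      exact Nat.pow_right_injective le_rfl (Nat.pow_right_injective le_rfl hab)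
    have h3 := h2.preimage (f := fun k : ℕ => 2 ^ (2 ^ k)) hinj.injOn
    refine h3.subset fun k hk => ?_
    exact ⟨⟨k, rfl⟩, hk⟩

end Pool.Agent.Results.MP_a70bdc_nt.MetricSelfPowers
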