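import Pool.Agent.U976.Fer.NN

set_option autoImplicit false

/-!
# MP_a70bdc_nt: full power residue classes modulo `n^n + 1`

Let `k ≥ 3`, `w = 2^k`, `n = 2^w` (by the known necessary condition every prime `n^n + 1`, `n > 16`,
has such an `n`).  Modulo a prime `n^n + 1` the number `2` has order `2 n w`.

(1) For odd `s` the `2nw`-th power residue class of `n^s - 1` and of `n^s + 1` is given in closed
form by `2^(± s n / 4)`, a primitive `8w`-th root of unity, and each of these congruences is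
equivalent to the primality of `n^n + 1`.

(2) If `n^n + 1` is prime then `n^s - 1` (for even `s` not divisible by `2n`) and `n^s + 1` (for even
`s` not divisible by `n`) are `2nw`-th power residues, and so is `1 - z` for every `z ≠ 1`
with `z^n = 1`.

(3) For `l = 2^(2^j)`, `1 ≤ j ≤ k`, and odd `s`, `n^n + 1` is prime if and only if
`(l^s - 1)^(2 n^n / l) = -1`.

(4) Smaller members `l^l + 1`, `l = 2^(2^j)`, `j < k`, of the sequence as bases: a Pepin test if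
`l log_2 l ≤ w + k + 2`, and `2nw`-th power residues if `l log_2 l ≥ w + k + 3`.
-/

namespace Pool.Agent.Results.MP_a70bdc_nt.NestedBases

open Pool.Agent.U976.Fer

lemma nn_eq {k w n : ℕ} (hw : w = 2 ^ k) (hn : n = 2 ^ w) : n ^ n = 2 ^ (2 ^ (k + w)) := by
  rw [hn, ← pow_mul, hw, ← pow_add]

lemma fer_eq {k w n : ℕ} (hw : w = 2 ^ k) (hn : n = 2 ^ w) :
    n ^ n + 1 = Nat.fermatNumber (k + w) := by
  rw [nn_eq hw hn, Nat.fermatNumber]

lemma two_nw {k w n : ℕ} (hw : w = 2 ^ k) (hn : n = 2 ^ w) : 2 * n * w = 2 ^ (k + w + 1) := by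
  have h1 : (2 : ℕ) ^ (k + w + 1) = 2 ^ k * 2 ^ w * 2 := by rw [pow_succ, pow_add]
  rw [h1, ← hn, ← hw]
  ring

lemma T_eq {k w n : ℕ} (hw : w = 2 ^ k) (hn : n = 2 ^ w) :
    n ^ n / (2 * n * w) = TT (k + w) := by
  rw [two_nw hw hn, nn_eq hw hn, Nat.pow_div (T_lt _) (by norm_num)]
  rfl

lemma quarter {w n : ℕ} (h2 : 2 ≤ w) (hn : n = 2 ^ w) : n / 4 = 2 ^ (w - 2) := by
  rw [hn, show (4 : ℕ) = 2 ^ 2 by norm_num, Nat.pow_div h2 (by norm_num)]

/-- `n^s - 1` in the ring of residues -/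
lemma cast_minus (N : ℕ) {k w n s : ℕ} (hw : w = 2 ^ k) (hn : n = 2 ^ w) :
    ((n ^ s - 1 : ℕ) : ZMod N) = 2 ^ (2 ^ k * s) - 1 := by
  have h1 : 1 ≤ n ^ s := Nat.one_le_pow _ _ (by rw [hn]; positivity)
  rw [Nat.cast_sub h1]
  push_cast
  rw [hn, hw]
  push_cast
  rw [← pow_mul]

lemma cast_plus (N : ℕ) {k w n s : ℕ} (hw : w = 2 ^ k) (hn : n = 2 ^ w) :
    ((n ^ s + 1 : ℕ) : ZMod N) = 2 ^ (2 ^ k * s) + 1 := by
  push_cast
  rw [hn, hw]
  push_cast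
  rw [← pow_mul]

theorem result (k w n : ℕ) (hk : 3 ≤ k) (hw : w = 2 ^ k) (hn : n = 2 ^ w) :
    -- the `2nw`-th power residue classes of `n^s - 1` and `n^s + 1`, `s` odd (`c` inverse to `s`)
    (∀ s c : ℕ, s * c ≡ 1 [MOD 2 * n] → c < 2 * n →
      ((n ^ n + 1).Prime ↔ ((n ^ s - 1 : ℕ) : ZMod (n ^ n + 1)) ^ (n ^ n / (2 * n * w)) =
        2 ^ ((if c < n then 1 else 2 * n * w - 1) * s * (n / 4))) ∧
      ((n ^ n + 1).Prime ↔ ((n ^ s + 1 : ℕ) : ZMod (n ^ n + 1)) ^ (n ^ n / (2 * n * w)) =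
        2 ^ ((if c < n then 2 * n * w - 1 else 1) * s * (n / 4)))) ∧
    -- residues
    ((n ^ n + 1).Prime →
      (∀ s : ℕ, Even s → ¬ 2 * n ∣ s →
        ∃ y : ZMod (n ^ n + 1), y ^ (2 * n * w) = (n ^ s - 1 : ℕ)) ∧
      (∀ s : ℕ, Even s → ¬ n ∣ s →
        ∃ y : ZMod (n ^ n + 1), y ^ (2 * n * w) = (n ^ s + 1 : ℕ)) ∧
      (∀ z : ZMod (n ^ n + 1), z ^ n = 1 → z ≠ 1 →
        ∃ y : ZMod (n ^ n + 1), y ^ (2 * n * w) = 1 - z)) ∧
    -- the bases `l^s - 1`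
    (∀ j l s : ℕ, 1 ≤ j → j ≤ k → l = 2 ^ (2 ^ j) → Odd s →
      ((n ^ n + 1).Prime ↔ ((l ^ s - 1 : ℕ) : ZMod (n ^ n + 1)) ^ (2 * n ^ n / l) = -1)) ∧
    -- smaller members of the sequence
    (∀ j l : ℕ, j < k → l = 2 ^ (2 ^ j) →
      (l * 2 ^ j ≤ w + k + 2 →
        ((n ^ n + 1).Prime ↔ ((l ^ l + 1 : ℕ) : ZMod (n ^ n + 1)) ^ (2 * n ^ n / l ^ l) = -1)) ∧
      (w + k + 3 ≤ l * 2 ^ j → (n ^ n + 1).Prime →
        ∃ y : ZMod (n ^ n + 1), y ^ (2 * n * w) = (l ^ l + 1 : ℕ))) := by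
  have h5 := kk hk
  have h2n : 2 * n = 2 ^ (2 ^ k + 1) := by rw [hn, hw, pow_succ]; ring
  rw [fer_eq hw hn, T_eq hw hn, two_nw hw hn, quarter (by omega) hn]
  have hnn := nn_eq hw hn
  refine ⟨?_, ?_, ?_, ?_⟩
  · intro s c hsc hc
    rw [h2n] at hsc hc
    have hcn : (c < n) ↔ (c < 2 ^ 2 ^ k) := by rw [hn, hw]
    rw [cast_minus _ hw hn, cast_plus _ hw hn]
    simp only [hcn]
    rw [hw]
    exact ⟨closed_iff hk rfl hc hsc, odd_plus hk rfl hc hsc⟩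
  · intro hF
    refine ⟨?_, ?_, ?_⟩
    · intro s hs hnd
      rw [cast_minus _ hw hn]
      rw [h2n] at hnd
      subst hw
      exact root_of hF (even_case hk rfl hs hnd hF)
    · intro s hs hnd
      rw [cast_plus _ hw hn]
      rw [hn, hw] at hnd
      subst hw
      exact root_of hF (even_plus hk rfl hs hnd hF)
    · intro z hz hz1
      have h6 : k + w + 3 ≤ 2 ^ (k + 1) := by
        rw [hw, pow_succ]
        omega
      rw [hn] at hz
      exact root_of hF (cyc (i := k + 1) (j := w) (by omega) h6 (by omega) hF hz hz1)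
  · intro j l s hj1 hjk hl hs
    have h6 : (2 : ℕ) ^ j ≤ 2 ^ k := Nat.pow_le_pow_right (by norm_num) hjk
    rw [cast_minus (w := 2 ^ j) (k := j) _ rfl hl, hnn, hl]
    have h7 : 2 * 2 ^ 2 ^ (k + w) / 2 ^ 2 ^ j = 2 ^ (2 ^ (k + w) + 1 - 2 ^ j) := by
      have h8 : (2 : ℕ) ^ j ≤ 2 ^ (k + w) := Nat.pow_le_pow_right (by norm_num) (by omega)
      rw [← pow_succ', Nat.pow_div (by omega) (by norm_num)]
    rw [h7]
    exact crit (by omega) hj1 (by omega) hs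
  · intro j l hjk hl
    have hll : l ^ l = 2 ^ (2 ^ (j + 2 ^ j)) := nn_eq rfl hl
    have hlj : l * 2 ^ j = 2 ^ (j + 2 ^ j) := by
      rw [hl, pow_add]
      ring
    have hj2 : (2 : ℕ) ^ j < 2 ^ k := Nat.pow_lt_pow_right (by norm_num) hjk
    have hF' : l ^ l + 1 = Nat.fermatNumber (j + 2 ^ j) := fer_eq rfl hl
    have hpos : 1 ≤ 2 ^ j := Nat.one_le_two_pow
    rw [hlj, hF', hll, hnn]
    refine ⟨?_, ?_⟩
    · intro h
      have h7 : 2 * 2 ^ 2 ^ (k + w) / 2 ^ 2 ^ (j + 2 ^ j) =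
          2 ^ (2 ^ (k + w) + 1 - 2 ^ (j + 2 ^ j)) := by
        have h8 : (2 : ℕ) ^ (j + 2 ^ j) ≤ 2 ^ (k + w) :=
          Nat.pow_le_pow_right (by norm_num) (by omega)
        rw [← pow_succ', Nat.pow_div (by omega) (by norm_num)]
      rw [h7]
      exact fermat_small (by omega) (by omega) (by omega)
    · intro h hF
      exact root_of hF (fermat_large (by omega) (by omega) (by omega) hF)

end Pool.Agent.Results.MP_a70bdc_nt.NestedBases
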