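import Mathlib
import Pool.Agent.U155.Fer.SP

set_option autoImplicit false

/-!
# The law of the primes `n ^ n + 1` for almost every amplitude

If `n ^ n + 1` is prime, `n > 1`, then `n = 2 ^ (2 ^ k)` for some `k`.  For real `β > 0` let `V β k` be
the least integer larger than `β * n ^ n`, `n = 2 ^ (2 ^ k)`; for `β = 1` this is `n ^ n + 1`.  All prime
factors of `n ^ n + 1`, `k ≥ 1`, are larger than `4 * 2 ^ k * n`, because they are congruent to `1`
modulo this number.  Let `W β k` be the product (with multiplicity) of the prime factors of `V β k` that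
are larger than `4 * 2 ^ k * n`.  Thus `W 1 k = n ^ n + 1` for `k ≥ 1`.

The heuristic argument for the finiteness of the set of primes `n ^ n + 1` (Hardy and Wright for Fermat
numbers; with the correction for the small primes, Boklan and Conway) gives the value
`e ^ γ log (4 * 2 ^ k * n) / log (n ^ n) = e ^ γ (k + 2 ^ k + 2) / (2 ^ k * n)` for the expected number of
primes at `k`.  We prove that this is exactly what happens for the amplitude `β`: in every window
`s < log β ≤ t` the (logarithmic) measure of the `β` for which some `W β k` with `k ≥ K` is prime is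
asymptotic to `(t - s)` times the value at `k = K`, the measure of the `β` with two or more such `k` is at
most a constant times the square of it, and for almost every `β` only finitely many of the `W β k` are
prime.  On the other hand the set of `β` for which infinitely many of the `W β k` are prime is residual.
-/

namespace Pool.Agent.Results.MP_a70bdc_nt.SelfPowerLaw

open Filter Topology MeasureTheory

/-- The product, with multiplicity, of the prime factors of `n` that are larger than `r`. -/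
def roughPart (r n : ℕ) : ℕ := (n.primeFactorsList.filter (fun q => r < q)).prod

/-- The `k`-th number `n > 1` for which `n ^ n + 1` may be prime. -/
def base (k : ℕ) : ℕ := 2 ^ 2 ^ k

/-- The rough part of the least integer larger than `β * n ^ n`. -/
noncomputable def W (β : ℝ) (k : ℕ) : ℕ :=
  roughPart (4 * 2 ^ k * base k) (⌊β * (base k : ℝ) ^ base k⌋₊ + 1)

/-- The heuristic probability, divided by `e ^ γ`. -/
noncomputable def density (k : ℕ) : ℝ := (k + 2 ^ k + 2) / (2 ^ k * base k)

lemma W_eq (β : ℝ) (k : ℕ) : W β k = Pool.Agent.U155.Fer.W β (Pool.Agent.U155.Fer.SP.mk k) := by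
  unfold W Pool.Agent.U155.Fer.W Pool.Agent.U155.Fer.SP.mk base
  have h1 : 4 * 2 ^ k * 2 ^ 2 ^ k = 2 ^ (k + 2 ^ k + 2) := by
    rw [pow_add, pow_add]
    ring
  have h2 : (((2 ^ 2 ^ k : ℕ) : ℝ)) ^ (2 ^ 2 ^ k) = 2 ^ 2 ^ (k + 2 ^ k) := by
    push_cast
    rw [← pow_mul, pow_add]
  rw [h1, h2]
  rfl

lemma density_eq (k : ℕ) :
    density k = Pool.Agent.U155.Fer.w (Pool.Agent.U155.Fer.SP.mk k) := by
  unfold density Pool.Agent.U155.Fer.w Pool.Agent.U155.Fer.SP.mk base
  push_cast
  rw [pow_add]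

lemma form {n : ℕ} (hn : 1 < n) (hp : (n ^ n + 1).Prime) : ∃ k, n = base k := by
  obtain ⟨m, hm⟩ := Nat.pow_of_pow_add_prime hn (by omega) hp
  have hm0 : m ≠ 0 := by
    rintro rfl
    rw [pow_zero] at hm
    omega
  have h2 : (2 ^ (m * n) + 1).Prime := by
    rw [pow_mul, ← hm]
    exact hp
  obtain ⟨j, hj⟩ := Nat.pow_of_pow_add_prime (by norm_num) (mul_ne_zero hm0 (by omega)) h2
  obtain ⟨k, _, hk⟩ := (Nat.dvd_prime_pow Nat.prime_two).1 (⟨n, hj.symm⟩ : m ∣ 2 ^ j)
  refine ⟨k, ?_⟩
  rw [hm, hk]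
  rfl

/-- If `n ^ n + 1` is prime and `n > 1`, then `n` is one of the numbers `base k` (known), and the value of
`W` at `β = 1`; the exact law for the amplitude; the bound for two prime values; almost everywhere finitely
many prime values; generically infinitely many prime values. -/
theorem result :
    ((∀ n : ℕ, 1 < n → (n ^ n + 1).Prime → ∃ k, n = base k) ∧
      ∀ k : ℕ, 1 ≤ k → W 1 k = base k ^ base k + 1) ∧
    (∀ s t : ℝ, s < t →
      Tendsto (fun K : ℕ =>
        (volume {u : ℝ | s < u ∧ u ≤ t ∧ ∃ k ≥ K, (W (Real.exp u) k).Prime}).toReal / density K)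
        atTop (𝓝 (Real.exp Real.eulerMascheroniConstant * (t - s)))) ∧
    (∀ s t : ℝ, s < t → ∃ C : ℝ, ∀ᶠ K : ℕ in atTop,
      (volume {u : ℝ | s < u ∧ u ≤ t ∧ ∃ k ≥ K, ∃ l > k,
        (W (Real.exp u) k).Prime ∧ (W (Real.exp u) l).Prime}).toReal ≤ C * density K ^ 2) ∧
    (∀ᵐ β : ℝ, 0 < β → {k : ℕ | (W β k).Prime}.Finite) ∧
    (∀ᶠ β : ℝ in residual ℝ, 0 < β → {k : ℕ | (W β k).Prime}.Infinite) := by
  refine ⟨⟨fun n hn hp => form hn hp, fun k hk => ?_⟩, fun s t hst => ?_, fun s t hst => ?_, ?_, ?_⟩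
  · rw [W_eq]
    exact Pool.Agent.U155.Fer.SP.W_one_sub hk
  · refine (Pool.Agent.U155.Fer.SP.law_sub hst).congr fun K => ?_
    rw [measureReal_def, Measure.restrict_apply' measurableSet_Ioc, density_eq]
    have e : {u : ℝ | ∃ k ≥ K, u ∈ Pool.Agent.U155.Fer.A (Pool.Agent.U155.Fer.SP.mk k)} ∩
        Set.Ioc s t = {u : ℝ | s < u ∧ u ≤ t ∧ ∃ k ≥ K, (W (Real.exp u) k).Prime} := by
      ext u
      simp only [W_eq]
      constructor
      · rintro ⟨h1, h2, h3⟩
        exact ⟨h2, h3, h1⟩
      · rintro ⟨h2, h3, h1⟩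
        exact ⟨h1, h2, h3⟩
    rw [e]
  · obtain ⟨C, hC⟩ := Pool.Agent.U155.Fer.SP.pairs_sub hst
    refine ⟨C, ?_⟩
    filter_upwards [hC] with K hK
    rw [measureReal_def, Measure.restrict_apply' measurableSet_Ioc] at hK
    have e : {u : ℝ | ∃ k ≥ K, ∃ l > k, u ∈ Pool.Agent.U155.Fer.A (Pool.Agent.U155.Fer.SP.mk k) ∧
        u ∈ Pool.Agent.U155.Fer.A (Pool.Agent.U155.Fer.SP.mk l)} ∩ Set.Ioc s t =
        {u : ℝ | s < u ∧ u ≤ t ∧ ∃ k ≥ K, ∃ l > k,
          (W (Real.exp u) k).Prime ∧ (W (Real.exp u) l).Prime} := by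
      ext u
      simp only [W_eq]
      constructor
      · rintro ⟨h1, h2, h3⟩
        exact ⟨h2, h3, h1⟩
      · rintro ⟨h2, h3, h1⟩
        exact ⟨h1, h2, h3⟩
    rw [e] at hK
    rw [density_eq]
    exact hK
  · simp only [W_eq]
    exact Pool.Agent.U155.Fer.SP.ae_finite_sub
  · simp only [W_eq]
    exact Pool.Agent.U155.Fer.SP.residual_infinite

end Pool.Agent.Results.MP_a70bdc_nt.SelfPowerLaw
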