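import Mathlib
import Pool.Agent.U618.SP.Asz

set_option autoImplicit false

/-!
# The numbers `m ^ m + 1` in sequential random models of the primes

The question is whether `m ^ m + 1` is prime for infinitely many `m`.  We answer it, for the numbers `m ^ m + 1` with
`m` in any set `E`, in EVERY sequential random set: the integers are decided one after the other, and the conditional
probability of choosing `n + 1` given the past is asymptotic to a given profile `ρ (n + 1)`; no independence and no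
rate is assumed.  The models which are sieved by finitely many primes have infinitely many chosen `m ^ m + 1`; the
models which respect the factorization `a + 1 ∣ a ^ q + 1` (`q` odd) have only finitely many, even if the density is
much larger than that of the primes.
-/

open MeasureTheory Filter
open scoped Topology

namespace Pool.Agent.Results.MP_a70bdc_nt.SequentialModels

/-- The conditional probability, given the past `ℱ n`, that `n + 1` is chosen. -/
noncomputable def cp {Ω : Type} [mΩ : MeasurableSpace Ω] (μ : Measure Ω) (ℱ : Filtration ℕ mΩ)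
    (S : ℕ → Set Ω) (n : ℕ) : Ω → ℝ :=
  μ[(S (n + 1)).indicator (fun _ => (1 : ℝ)) | ℱ n]

/-- A sequential random set with the profile `ρ`: `S n` is the event that `n` is chosen, it belongs to the past
`ℱ n`, and almost surely the conditional probability of `S (n + 1)` given `ℱ n` is asymptotic to `ρ (n + 1)`. -/
structure Model {Ω : Type} [mΩ : MeasurableSpace Ω] (μ : Measure Ω) (ℱ : Filtration ℕ mΩ)
    (S : ℕ → Set Ω) (ρ : ℕ → ℝ) : Prop where
  adapted : ∀ n, MeasurableSet[ℱ n] (S n)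
  range : ∀ n, 0 ≤ ρ n ∧ ρ n ≤ 1
  law : ∀ᵐ ω ∂μ, ∀ ε : ℝ, 0 < ε → ∀ᶠ n : ℕ in atTop, |cp μ ℱ S n ω - ρ (n + 1)| ≤ ε * ρ (n + 1)

/-- the `m ≥ 1` in `E` for which `m ^ m + 1` is chosen -/
def Chosen {Ω : Type} (S : ℕ → Set Ω) (ω : Ω) (E : Set ℕ) : Set ℕ := {m | 1 ≤ m ∧ m ∈ E ∧ ω ∈ S (m ^ m + 1)}

/-- the number of the `m ≤ x` in `Chosen S ω E` -/
noncomputable def count {Ω : Type} (S : ℕ → Set Ω) (ω : Ω) (E : Set ℕ) (x : ℕ) : ℕ :=
  {m : ℕ | m ∈ Chosen S ω E ∧ m ≤ x}.ncard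

open Classical in
/-- the sum of `ρ (m ^ m + 1)` over the `m` in `E` with `1 ≤ m ≤ x` -/
noncomputable def mean (ρ : ℕ → ℝ) (E : Set ℕ) (x : ℕ) : ℝ :=
  ∑ m ∈ (Finset.Icc 1 x).filter (fun m => m ∈ E), ρ (m ^ m + 1)

open Classical in
/-- the profile of the primes sieved by `Q`: `0` if a prime of `Q` divides `n`, and otherwise
`∏_{p ∈ Q} (1 - 1/p)⁻¹ / log n` (at most `1`) -/
noncomputable def sieve (Q : Finset ℕ) (n : ℕ) : ℝ :=
  if ∀ p ∈ Q, ¬ p ∣ n then min 1 ((∏ p ∈ Q, (1 - 1 / (p : ℝ))⁻¹) / Real.log n) else 0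

/-- the numbers `2 ^ (2 ^ k)` -/
def T : Set ℕ := Set.range fun k : ℕ => 2 ^ 2 ^ k

theorem count_eq {Ω : Type} (S : ℕ → Set Ω) (ω : Ω) (E : Set ℕ) (x : ℕ) :
    count S ω E x = Pool.Agent.U618.SP.cnt {a | ω ∈ S a} E x := by
  unfold count Chosen Pool.Agent.U618.SP.cnt
  congr 1
  ext m
  constructor
  · rintro ⟨⟨h1, h2, h3⟩, h4⟩
    exact ⟨h1, h4, h2, h3⟩
  · rintro ⟨h1, h4, h2, h3⟩
    exact ⟨⟨h1, h2, h3⟩, h4⟩

theorem mean_eq (ρ : ℕ → ℝ) (E : Set ℕ) : mean ρ E = Pool.Agent.U618.SP.mean ρ E := rfl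

theorem sieve_eq (Q : Finset ℕ) : sieve Q = Pool.Agent.U618.SP.prof Q := rfl

open Classical in
theorem free_count (Q : Finset ℕ) (x : ℕ) :
    {m : ℕ | 1 ≤ m ∧ m ≤ x ∧ ∀ p ∈ Q, ¬ p ∣ m ^ m + 1}.ncard = Nat.count (Pool.Agent.U618.SP.Fr Q) x := by
  rw [Nat.count_eq_card_filter_range, ← Set.ncard_coe_finset,
    ← Set.ncard_image_of_injective
      (((Finset.range x).filter (Pool.Agent.U618.SP.Fr Q) : Finset ℕ) : Set ℕ) Nat.succ_injective]
  congr 1
  ext m
  simp only [Set.mem_image, Finset.coe_filter, Finset.mem_range]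
  constructor
  · rintro ⟨h1, h2, h3⟩
    obtain ⟨n, rfl⟩ : ∃ n, m = n + 1 := ⟨m - 1, by omega⟩
    exact ⟨n, ⟨by omega, h3⟩, rfl⟩
  · rintro ⟨n, ⟨h1, h2⟩, rfl⟩
    exact ⟨by simp, by simpa [Nat.succ_eq_add_one] using h1, h2⟩

open Classical in
theorem mean_mono {ρ : ℕ → ℝ} (hρ : ∀ n, 0 ≤ ρ n) (E : Set ℕ) : Monotone (mean ρ E) := by
  intro x y hxy
  unfold mean
  refine Finset.sum_le_sum_of_subset_of_nonneg ?_ fun m _ _ => hρ _
  exact Finset.filter_subset_filter _ (Finset.Icc_subset_Icc_right hxy)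

/-- **The numbers `m ^ m + 1` in sequential random sets.**

(1) Let `ρ` be any profile and `E` any set of natural numbers.  If the sum of `ρ (m ^ m + 1)` over the `m ≥ 1` in
`E` diverges, then in every sequential random set with the profile `ρ` almost surely infinitely many `m` in `E` have
`m ^ m + 1` chosen, and the number of those `m ≤ x` is asymptotic to the partial sum.  If the sum converges, then
almost surely there are only finitely many.

(2) Let `Q` be a finite set of primes.  The `m` for which no prime of `Q` divides `m ^ m + 1` have a positive density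
`δ`, and in the models of the primes sieved by `Q` almost surely `m ^ m + 1` is chosen for infinitely many `m`, and
the number of these `m ≤ x`, divided by `log log x`, tends to `δ ∏_{p ∈ Q} (1 - 1/p)⁻¹`.

(3) Let `c > 0`, and suppose only that almost surely, for all large `n`, the conditional probability of choosing
`n + 1` is at most `(log (n + 1)) ^ (-c)`.  Then almost surely `m ^ m + 1` is chosen for only finitely many
`m = 2 ^ (2 ^ k)`.

(4) If, in (3), no number `a ^ q + 1` with `a ≥ 2` and `q ≥ 3` odd is chosen, then almost surely only finitely many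
`m ^ m + 1` are chosen. -/
theorem result {Ω : Type} [mΩ : MeasurableSpace Ω] (μ : Measure Ω) [IsProbabilityMeasure μ]
    (ℱ : Filtration ℕ mΩ) (S : ℕ → Set Ω) :
    (∀ ρ : ℕ → ℝ, Model μ ℱ S ρ → ∀ E : Set ℕ,
      (Tendsto (mean ρ E) atTop atTop → ∀ᵐ ω ∂μ, (Chosen S ω E).Infinite ∧
        Tendsto (fun x : ℕ => (count S ω E x : ℝ) / mean ρ E x) atTop (𝓝 1)) ∧
      (¬ Tendsto (mean ρ E) atTop atTop → ∀ᵐ ω ∂μ, (Chosen S ω E).Finite)) ∧
    (∀ Q : Finset ℕ, (∀ p ∈ Q, p.Prime) → ∃ δ : ℝ, 0 < δ ∧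
      Tendsto (fun x : ℕ => ({m : ℕ | 1 ≤ m ∧ m ≤ x ∧ ∀ p ∈ Q, ¬ p ∣ m ^ m + 1}.ncard : ℝ) / x) atTop (𝓝 δ) ∧
      (Model μ ℱ S (sieve Q) → ∀ᵐ ω ∂μ, (Chosen S ω Set.univ).Infinite ∧
        Tendsto (fun x : ℕ => (count S ω Set.univ x : ℝ) / Real.log (Real.log x)) atTop
          (𝓝 (δ * ∏ p ∈ Q, (1 - 1 / (p : ℝ))⁻¹)))) ∧
    (∀ c : ℝ, 0 < c → (∀ n, MeasurableSet[ℱ n] (S n)) →
      (∀ᵐ ω ∂μ, ∀ᶠ n : ℕ in atTop, cp μ ℱ S n ω ≤ (Real.log ((n + 1 : ℕ) : ℝ)) ^ (-c)) →
      (∀ᵐ ω ∂μ, (Chosen S ω T).Finite) ∧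
      ((∀ a q : ℕ, 2 ≤ a → Odd q → 3 ≤ q → S (a ^ q + 1) = ∅) →
        ∀ᵐ ω ∂μ, (Chosen S ω Set.univ).Finite)) := by
  have h1 : ∀ ρ : ℕ → ℝ, Model μ ℱ S ρ → ∀ E : Set ℕ,
      (Tendsto (mean ρ E) atTop atTop → ∀ᵐ ω ∂μ, (Chosen S ω E).Infinite ∧
        Tendsto (fun x : ℕ => (count S ω E x : ℝ) / mean ρ E x) atTop (𝓝 1)) ∧
      (¬ Tendsto (mean ρ E) atTop atTop → ∀ᵐ ω ∂μ, (Chosen S ω E).Finite) := by
    intro ρ hM E
    refine ⟨fun hE => ?_, fun hE => ?_⟩
    · filter_upwards [Pool.Agent.U618.SP.law_E (μ := μ) (ℱ := ℱ) hM.adapted ρ hM.range hM.law E hE] with ω hω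
      refine ⟨Pool.Agent.U618.SP.inf_of_law hE hω, ?_⟩
      simp only [count_eq, mean_eq]
      exact hω
    · obtain ⟨B, hB⟩ : ∃ B, ∀ x, mean ρ E x ≤ B := by
        by_contra h
        push Not at h
        exact hE (tendsto_atTop_atTop_of_monotone (mean_mono (fun n => (hM.range n).1) E)
          fun b => (h b).imp fun _ hx => hx.le)
      refine Pool.Agent.U618.SP.fin_E (μ := μ) (ℱ := ℱ) hM.adapted ρ (fun n => (hM.range n).1) 2
        (by norm_num) ?_ E B hB
      filter_upwards [hM.law] with ω hω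
      filter_upwards [hω 1 one_pos] with n hn
      have h2 : cp μ ℱ S n ω ≤ 2 * ρ (n + 1) := by
        have := (abs_le.1 hn).2
        linarith
      exact h2
  refine ⟨h1, fun Q hQ => ?_, fun c hc hA hd => ?_⟩
  · classical
    have hL := Pool.Agent.U618.SP.Lq_pos hQ
    have hc := Pool.Agent.U618.SP.cnt_pos hQ
    refine ⟨Pool.Agent.U618.SP.dQ Q, ?_, ?_, fun hM => ?_⟩
    · have hL' : (0 : ℝ) < Pool.Agent.U618.SP.Lq Q := by exact_mod_cast hL
      have hc' : (0 : ℝ) < Nat.count (Pool.Agent.U618.SP.Fr Q) (Pool.Agent.U618.SP.Lq Q) := by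
        exact_mod_cast hc
      exact div_pos hc' hL'
    · simp only [free_count]
      exact Pool.Agent.U618.SP.per_dens (Pool.Agent.U618.SP.Fr Q) _ hL (Pool.Agent.U618.SP.Fr_per hQ)
    · have h2 : Tendsto (mean (sieve Q) Set.univ) atTop atTop := Pool.Agent.U618.SP.prof_div hQ
      have h3 : Tendsto (fun x : ℕ => mean (sieve Q) Set.univ x / Real.log (Real.log x)) atTop
          (𝓝 (Pool.Agent.U618.SP.dQ Q * ∏ p ∈ Q, (1 - 1 / (p : ℝ))⁻¹)) := Pool.Agent.U618.SP.mean_asy hQ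
      filter_upwards [(h1 _ hM Set.univ).1 h2] with ω hω
      refine ⟨hω.1, ?_⟩
      have h4 := hω.2.mul h3
      rw [one_mul] at h4
      refine h4.congr' ?_
      filter_upwards [h2.eventually_gt_atTop 0] with x hx
      field_simp
  · have h3 : ∀ᵐ ω ∂μ, (Chosen S ω T).Finite := by
      refine Pool.Agent.U618.SP.fin_E (μ := μ) (ℱ := ℱ) hA (fun m => (Real.log m) ^ (-c))
        (fun n => Real.rpow_nonneg (Real.log_natCast_nonneg _) _) 1 zero_le_one ?_ T _
        (Pool.Agent.U618.SP.T_bdd c hc)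
      filter_upwards [hd] with ω hω
      filter_upwards [hω] with n hn
      rw [one_mul]
      exact hn
    refine ⟨h3, fun hS => ?_⟩
    filter_upwards [h3] with ω hω
    refine ((Set.finite_singleton 1).union hω).subset ?_
    rintro m ⟨hm1, -, hm3⟩
    by_cases hT : m ∈ T
    · exact Or.inr ⟨hm1, hT, hm3⟩
    · rcases hm1.eq_or_lt with h | h
      · exact Or.inl h.symm
      · exfalso
        obtain ⟨a, q, ha, hq, hq3, he⟩ := Pool.Agent.U618.SP.pow_form h hT
        rw [he, hS a q ha hq hq3] at hm3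
        exact hm3

end Pool.Agent.Results.MP_a70bdc_nt.SequentialModels
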